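import Pool.Agent.Y865.SP.Stm
import Pool.Agent.H207R2.BL.Cross

set_option autoImplicit false

/-!
# Two paths in the closed unit disc with interlaced end points meet (job SP-DISC)
-/

namespace Pool.Agent.Y438.SP

open Complex Set

/-- the Cayley map -/
noncomputable def cay (z₀ z : ℂ) : ℂ := I * (z₀ + z) / (z₀ - z)

theorem cay_im {z₀ z : ℂ} (h0 : ‖z₀‖ = 1) (hz : ‖z‖ ≤ 1) : 0 ≤ (cay z₀ z).im := by
  have e : (cay z₀ z).im = (Complex.normSq z₀ - Complex.normSq z) / Complex.normSq (z₀ - z) := by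
    unfold cay
    rw [Complex.div_im, Complex.I_mul_im, Complex.I_mul_re, Complex.normSq_apply z₀,
      Complex.normSq_apply z]
    simp only [Complex.add_re, Complex.add_im, Complex.sub_re, Complex.sub_im]
    ring
  rw [e, Complex.normSq_eq_norm_sq z₀, Complex.normSq_eq_norm_sq z, h0]
  refine div_nonneg ?_ (Complex.normSq_nonneg _)
  have := norm_nonneg z
  nlinarith

theorem cay_inj {z₀ z w : ℂ} (h0 : z₀ ≠ 0) (hz : z ≠ z₀) (hw : w ≠ z₀)
    (h : cay z₀ z = cay z₀ w) : z = w := by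
  unfold cay at h
  have hz' : z₀ - z ≠ 0 := sub_ne_zero.2 hz.symm
  have hw' : z₀ - w ≠ 0 := sub_ne_zero.2 hw.symm
  rw [div_eq_div_iff hz' hw'] at h
  have h1 : (2 * I * z₀) * (z - w) = 0 := by linear_combination h
  have h2 : (2 * I * z₀) ≠ 0 := by
    refine mul_ne_zero (mul_ne_zero two_ne_zero Complex.I_ne_zero) h0
  exact sub_eq_zero.1 ((mul_eq_zero.1 h1).resolve_left h2)

/-- the value on the circle -/
noncomputable def cv (θ x : ℝ) : ℝ := -Real.cos ((x - θ) / 2) / Real.sin ((x - θ) / 2)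

theorem cay_exp {θ x : ℝ} (h1 : θ < x) (h2 : x < θ + 2 * Real.pi) :
    cay (Complex.exp (θ * I)) (Complex.exp (x * I)) = (cv θ x : ℂ) := by
  obtain ⟨φ, hφ⟩ : ∃ φ : ℝ, φ = (x - θ) / 2 := ⟨_, rfl⟩
  obtain ⟨m, hm⟩ : ∃ m : ℝ, m = (x + θ) / 2 := ⟨_, rfl⟩
  have hs : 0 < Real.sin φ := by
    apply Real.sin_pos_of_pos_of_lt_pi
    · rw [hφ]; linarith
    · rw [hφ]; linarith
  have ex : Complex.exp (x * I) = Complex.exp (m * I) * Complex.exp (φ * I) := by
    rw [← Complex.exp_add]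
    congr 1
    rw [hφ, hm]
    push_cast
    ring
  have et : Complex.exp (θ * I) = Complex.exp (m * I) * Complex.exp (-(φ * I)) := by
    rw [← Complex.exp_add]
    congr 1
    rw [hφ, hm]
    push_cast
    ring
  have e1 : Complex.exp (φ * I) = Real.cos φ + Real.sin φ * I := by
    rw [Complex.exp_mul_I, Complex.ofReal_cos, Complex.ofReal_sin]
  have e2 : Complex.exp (-(φ * I)) = Real.cos φ - Real.sin φ * I := by
    have : -((φ : ℂ) * I) = ((-φ : ℝ) : ℂ) * I := by push_cast; ring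
    rw [this, Complex.exp_mul_I, ← Complex.ofReal_cos, ← Complex.ofReal_sin, Real.cos_neg,
      Real.sin_neg]
    push_cast
    ring
  have hm0 : Complex.exp (m * I) ≠ 0 := Complex.exp_ne_zero _
  have hs' : (Real.sin φ : ℂ) ≠ 0 := by exact_mod_cast hs.ne'
  unfold cay cv
  rw [ex, et, e1, e2, ← hφ]
  have hden : Complex.exp (m * I) * ((Real.cos φ : ℂ) - Real.sin φ * I) -
      Complex.exp (m * I) * ((Real.cos φ : ℂ) + Real.sin φ * I) =
      -(2 * I * Real.sin φ * Complex.exp (m * I)) := by ring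
  rw [hden]
  have hd0 : -(2 * I * Real.sin φ * Complex.exp (m * I)) ≠ 0 := by
    refine neg_ne_zero.2 (mul_ne_zero (mul_ne_zero (mul_ne_zero two_ne_zero Complex.I_ne_zero)
      hs') hm0)
  rw [div_eq_iff hd0]
  push_cast
  rw [div_mul_eq_mul_div, eq_div_iff (by exact_mod_cast hs')]
  ring

theorem cv_lt {θ x y : ℝ} (h1 : θ < x) (h2 : x < y) (h3 : y < θ + 2 * Real.pi) :
    cv θ x < cv θ y := by
  obtain ⟨p, hp⟩ : ∃ p : ℝ, p = (x - θ) / 2 := ⟨_, rfl⟩
  obtain ⟨q, hq⟩ : ∃ q : ℝ, q = (y - θ) / 2 := ⟨_, rfl⟩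
  have hsp : 0 < Real.sin p := by
    apply Real.sin_pos_of_pos_of_lt_pi
    · rw [hp]; linarith
    · rw [hp]; linarith
  have hsq : 0 < Real.sin q := by
    apply Real.sin_pos_of_pos_of_lt_pi
    · rw [hq]; linarith
    · rw [hq]; linarith
  have hspq : 0 < Real.sin (q - p) := by
    apply Real.sin_pos_of_pos_of_lt_pi
    · rw [hp, hq]; linarith
    · rw [hp, hq]; linarith
  unfold cv
  rw [← hp, ← hq, div_lt_div_iff₀ hsp hsq]
  rw [Real.sin_sub] at hspq
  linarith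

theorem core (θ a b c d : ℝ) (h0 : θ < a) (hab : a < b) (hbc : b < c) (hcd : c < d)
    (hd : d < θ + 2 * Real.pi) (A B : ℝ → ℂ) (hA : Continuous A) (hB : Continuous B)
    (nA : ∀ s, ‖A s‖ ≤ 1) (nB : ∀ s, ‖B s‖ ≤ 1) (zA : ∀ s, A s ≠ Complex.exp (θ * I))
    (zB : ∀ s, B s ≠ Complex.exp (θ * I)) (A0 : A 0 = Complex.exp (a * I))
    (A1 : A 1 = Complex.exp (c * I)) (B0 : B 0 = Complex.exp (b * I))
    (B1 : B 1 = Complex.exp (d * I)) : ∃ s t, A s = B t := by
  obtain ⟨z₀, hz₀⟩ : ∃ z₀ : ℂ, z₀ = Complex.exp (θ * I) := ⟨_, rfl⟩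
  have hn : ‖z₀‖ = 1 := by rw [hz₀, Complex.norm_exp_ofReal_mul_I]
  have hne : z₀ ≠ 0 := by rw [hz₀]; exact Complex.exp_ne_zero _
  rw [← hz₀] at zA zB
  have cA : Continuous fun s => cay z₀ (A s) := by
    unfold cay
    exact (continuous_const.mul (continuous_const.add hA)).div (continuous_const.sub hA)
      fun s => sub_ne_zero.2 (zA s).symm
  have cB : Continuous fun s => cay z₀ (B s) := by
    unfold cay
    exact (continuous_const.mul (continuous_const.add hB)).div (continuous_const.sub hB)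
      fun s => sub_ne_zero.2 (zB s).symm
  obtain ⟨s, t, hst⟩ := Pool.Agent.H207R2.BL.interlace (fun s => cay z₀ (A s))
    (fun s => cay z₀ (B s)) cA cB (fun s => cay_im hn (nA s)) (fun s => cay_im hn (nB s))
    (cv θ a) (cv θ b) (cv θ c) (cv θ d) (cv_lt h0 hab (by linarith))
    (cv_lt (by linarith) hbc (by linarith)) (cv_lt (by linarith) hcd hd)
    (by
      show cay z₀ (A 0) = _
      rw [A0, hz₀, cay_exp h0 (by linarith)])
    (by
      show cay z₀ (A 1) = _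
      rw [A1, hz₀, cay_exp (by linarith) (by linarith)])
    (by
      show cay z₀ (B 0) = _
      rw [B0, hz₀, cay_exp (by linarith) (by linarith)])
    (by
      show cay z₀ (B 1) = _
      rw [B1, hz₀, cay_exp (by linarith) hd])
  exact ⟨s, t, cay_inj hne (zA s) (zB t) hst⟩

theorem exp_add_two_pi (x : ℝ) : Complex.exp (((x + 2 * Real.pi : ℝ) : ℂ) * I) =
    Complex.exp (x * I) := by
  have e : ((x + 2 * Real.pi : ℝ) : ℂ) * I = x * I + 2 * Real.pi * I := by push_cast; ring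
  rw [e, Complex.exp_periodic]

theorem disc : Pool.Agent.Y865.SP.S_DISC := by
  intro A₀ B₀ hA₀ hB₀ nA₀ nB₀ a b c d hab hbc hcd hd A00 A01 B00 B01
  by_contra hcon
  push Not at hcon
  have hcl : ∀ s : ℝ, max 0 (min 1 s) ∈ Icc (0 : ℝ) 1 := fun s =>
    ⟨le_max_left _ _, max_le zero_le_one (min_le_left _ _)⟩
  have hclc : Continuous fun s : ℝ => max (0 : ℝ) (min 1 s) := by fun_prop
  obtain ⟨A, hAd⟩ : ∃ A : ℝ → ℂ, A = fun s => A₀ (max 0 (min 1 s)) := ⟨_, rfl⟩
  obtain ⟨B, hBd⟩ : ∃ B : ℝ → ℂ, B = fun s => B₀ (max 0 (min 1 s)) := ⟨_, rfl⟩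
  have hA : Continuous A := by rw [hAd]; exact hA₀.comp hclc
  have hB : Continuous B := by rw [hBd]; exact hB₀.comp hclc
  have nA : ∀ s, ‖A s‖ ≤ 1 := fun s => by rw [hAd]; exact nA₀ _
  have nB : ∀ s, ‖B s‖ ≤ 1 := fun s => by rw [hBd]; exact nB₀ _
  have hAB : ∀ s t, A s ≠ B t := fun s t => by
    rw [hAd, hBd]
    exact hcon _ _ (hcl s) (hcl t)
  have A0 : A 0 = Complex.exp (a * I) := by
    rw [hAd, ← A00]
    simp
  have A1 : A 1 = Complex.exp (c * I) := by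
    rw [hAd, ← A01]
    simp
  have B0 : B 0 = Complex.exp (b * I) := by
    rw [hBd, ← B00]
    simp
  have B1 : B 1 = Complex.exp (d * I) := by
    rw [hBd, ← B01]
    simp
  have hrA : ∀ s, A s ∈ A₀ '' Icc 0 1 := fun s => by
    rw [hAd]
    exact ⟨_, hcl s, rfl⟩
  have hrB : ∀ s, B s ∈ B₀ '' Icc 0 1 := fun s => by
    rw [hBd]
    exact ⟨_, hcl s, rfl⟩
  -- a point of the circle outside both paths
  have hec : Continuous fun θ : ℝ => Complex.exp (θ * I) := by fun_prop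
  have hKA : IsClosed {θ : ℝ | Complex.exp (θ * I) ∈ A₀ '' Icc 0 1} :=
    (isCompact_Icc.image hA₀).isClosed.preimage hec
  have hKB : IsClosed {θ : ℝ | Complex.exp (θ * I) ∈ B₀ '' Icc 0 1} :=
    (isCompact_Icc.image hB₀).isClosed.preimage hec
  have hmem : ∃ θ : ℝ, Complex.exp (θ * I) ∉ A₀ '' Icc 0 1 ∧
      Complex.exp (θ * I) ∉ B₀ '' Icc 0 1 := by
    by_contra hno
    push Not at hno
    have h1 := isPreconnected_closed_iff.1 (isPreconnected_univ (α := ℝ)) _ _ hKA hKB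
      (fun θ _ => by
        by_cases h : Complex.exp (θ * I) ∈ A₀ '' Icc 0 1
        · exact Or.inl h
        · exact Or.inr (hno θ h))
      ⟨a, mem_univ _, ⟨0, by simp, A00⟩⟩ ⟨b, mem_univ _, ⟨0, by simp, B00⟩⟩
    obtain ⟨θ, -, ⟨s, hs, hs'⟩, ⟨t, ht, ht'⟩⟩ := h1
    exact hcon s t hs ht (hs'.trans ht'.symm)
  obtain ⟨θ₁, hθA₁, hθB₁⟩ := hmem
  obtain ⟨n, hn, -⟩ := existsUnique_add_zsmul_mem_Ico (show (0 : ℝ) < 2 * Real.pi by positivity)
    θ₁ (d - 2 * Real.pi)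
  obtain ⟨θ, hθ⟩ : ∃ θ : ℝ, θ = θ₁ + n • (2 * Real.pi) := ⟨_, rfl⟩
  rw [← hθ] at hn
  have hexp : Complex.exp (θ * I) = Complex.exp (θ₁ * I) := by
    rw [hθ, zsmul_eq_mul]
    have e : ((θ₁ + (n : ℝ) * (2 * Real.pi) : ℝ) : ℂ) * I = θ₁ * I + n * (2 * Real.pi * I) := by
      push_cast
      ring
    rw [e, Complex.exp_add, Complex.exp_int_mul_two_pi_mul_I, mul_one]
  have zA : ∀ s, A s ≠ Complex.exp (θ * I) := fun s h => hθA₁ (by
    rw [← hexp, ← h]
    exact hrA s)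
  have zB : ∀ s, B s ≠ Complex.exp (θ * I) := fun s h => hθB₁ (by
    rw [← hexp, ← h]
    exact hrB s)
  have hpi := Real.pi_pos
  have hθa : θ ≠ a := fun h => zA 0 (by rw [A0, h])
  have hθc : θ ≠ c := fun h => zA 1 (by rw [A1, h])
  have hθb : θ ≠ b := fun h => zB 0 (by rw [B0, h])
  have hθd : θ ≠ d - 2 * Real.pi := fun h => zB 1 (by
    rw [B1, h, ← exp_add_two_pi (d - 2 * Real.pi), sub_add_cancel])
  have h1 : d - 2 * Real.pi < θ := lt_of_le_of_ne hn.1 (Ne.symm hθd)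
  have h2 : θ < d := by have := hn.2; linarith
  have hrev : Continuous fun s : ℝ => 1 - s := by fun_prop
  have hA' : Continuous fun s : ℝ => A (1 - s) := hA.comp hrev
  have hB' : Continuous fun s : ℝ => B (1 - s) := hB.comp hrev
  have A0' : A (1 - 1) = Complex.exp (((a + 2 * Real.pi : ℝ) : ℂ) * I) := by
    rw [sub_self, exp_add_two_pi, A0]
  have A1' : A (1 - 0) = Complex.exp (c * I) := by rw [sub_zero, A1]
  have B0' : B (1 - 1) = Complex.exp (((b + 2 * Real.pi : ℝ) : ℂ) * I) := by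
    rw [sub_self, exp_add_two_pi, B0]
  have B1' : B (1 - 0) = Complex.exp (d * I) := by rw [sub_zero, B1]
  rcases lt_or_gt_of_ne hθa with ha | ha
  · obtain ⟨s, t, hst⟩ := core θ a b c d ha hab hbc hcd (by linarith) A B hA hB nA nB zA zB
      A0 A1 B0 B1
    exact hAB s t hst
  rcases lt_or_gt_of_ne hθb with hb | hb
  · obtain ⟨s, t, hst⟩ := core θ b c d (a + 2 * Real.pi) hb hbc hcd hd (by linarith) B
      (fun s => A (1 - s)) hB hA' nB (fun s => nA _) zB (fun s => zA _) B0 B1 A1' A0'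
    exact hAB _ _ hst.symm
  rcases lt_or_gt_of_ne hθc with hc | hc
  · obtain ⟨s, t, hst⟩ := core θ c d (a + 2 * Real.pi) (b + 2 * Real.pi) hc hcd hd
      (by linarith) (by linarith) (fun s => A (1 - s)) (fun s => B (1 - s)) hA' hB'
      (fun s => nA _) (fun s => nB _) (fun s => zA _) (fun s => zB _) A1' A0' B1' B0'
    exact hAB _ _ hst
  · obtain ⟨s, t, hst⟩ := core θ d (a + 2 * Real.pi) (b + 2 * Real.pi) (c + 2 * Real.pi) h2 hd
      (by linarith) (by linarith) (by linarith) (fun s => B (1 - s)) A hB' hA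
      (fun s => nB _) nA (fun s => zB _) zA B1' B0' (by rw [A0, exp_add_two_pi])
      (by rw [A1, exp_add_two_pi])
    exact hAB _ _ hst.symm

end Pool.Agent.Y438.SP
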